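import Pool.Agent.Q80.Conic.Geom

/-!
The threshold for conics on the hypersurfaces
`x_1^d + x_2^d + x_3^d = x_4^d + x_5^d + x_6^d` in `ℙ⁵` is `15`.

Upper bound: a non-degenerate conic gives six pairwise non-proportional polynomials of degree two
whose `d`-th powers satisfy a linear relation; a minimal relation and the Wronskian of its terms
give `d ≤ 14`.  Lower bound: an icosahedral identity between fourteenth powers of six quadratic
forms gives a non-degenerate conic for `d = 14`.
-/

namespace Pool.Agent.Results.MP_cd75ba_ag.ThresholdFifteen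

open Pool.Agent.Q80.Conic

/-- The least positive integer `d₀` such that for every `d ≥ d₀` every conic contained in
`X_d` is degenerate equals `15`. -/
theorem result : IsLeast {d₀ : ℕ | 0 < d₀ ∧ ∀ d : ℕ, d₀ ≤ d → ∀ C : Set (Fin 6 → ℂ),
    IsConicCone C → (∀ x ∈ C, diagForm d x = 0) → IsDegenerate C} 15 := by
  refine ⟨⟨by norm_num, fun d hd C hC hX => upper d hd C hC hX⟩, ?_⟩
  rintro m ⟨_, hm⟩
  by_contra hlt
  obtain ⟨C, hC, hX, hdeg⟩ := lower
  exact hdeg (hm 14 (by omega) C hC hX)

end Pool.Agent.Results.MP_cd75ba_ag.ThresholdFifteen
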